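import Mathlib

/-!
Two multi-affine polynomials of degree at most four in `2 N + 1` variables whose common zero
set has at least `2 ^ N` connected components.
-/

namespace Pool.Agent.Results.MP_12b847_ag.Unbounded

open MvPolynomial

universe u

/-- A polynomial is multi-affine if it has degree at most one in each variable. -/
def MultiAffine {R : Type u} [CommSemiring R] {n : ℕ} (P : MvPolynomial (Fin n) R) : Prop :=
  ∀ i, P.degreeOf i ≤ 1

/-- The common zero set of two polynomials in affine space over `R`. -/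
def Z {R : Type u} [CommSemiring R] {n : ℕ} (P Q : MvPolynomial (Fin n) R) :
    Set (Fin n → R) :=
  {x | eval x P = 0 ∧ eval x Q = 0}

/-- Semi-algebraic subsets of `R ^ n`: the smallest family of sets which contains the sets
where a polynomial is positive and is closed under complements and intersections. -/
inductive SemiAlg {R : Type u} [Field R] [LinearOrder R] {n : ℕ} :
    Set (Fin n → R) → Prop
  | pos (P : MvPolynomial (Fin n) R) : SemiAlg {x | 0 < eval x P}
  | compl {A : Set (Fin n → R)} : SemiAlg A → SemiAlg Aᶜ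
  | inter {A B : Set (Fin n → R)} : SemiAlg A → SemiAlg B → SemiAlg (A ∩ B)

/-- `U` is a relatively open subset of `C`, for the order topology on `R ^ n`. -/
def RelOpen {R : Type u} [Field R] [LinearOrder R] {n : ℕ} (C U : Set (Fin n → R)) : Prop :=
  U ⊆ C ∧ ∀ x ∈ U, ∃ ε : R, 0 < ε ∧ ∀ y ∈ C, (∀ i, |y i - x i| < ε) → y ∈ U

/-- A semi-algebraic set is semi-algebraically connected if it is not the disjoint union of
two nonempty relatively open semi-algebraic subsets. -/
def SAConnected {R : Type u} [Field R] [LinearOrder R] {n : ℕ} (C : Set (Fin n → R)) : Prop :=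
  SemiAlg C ∧ ∀ U V : Set (Fin n → R), SemiAlg U → SemiAlg V → RelOpen C U → RelOpen C V →
    U ∪ V = C → Disjoint U V → U = ∅ ∨ V = ∅

/-- The number of semi-algebraically connected components of `S`: the number of classes of
points of `S`, two points being in the same class when some semi-algebraically connected
subset of `S` contains both. -/
noncomputable def saB0 {R : Type u} [Field R] [LinearOrder R] {n : ℕ}
    (S : Set (Fin n → R)) : ℕ∞ :=
  ENat.card (Quot (fun x y : S => ∃ C : Set (Fin n → R), C ⊆ S ∧ SAConnected C ∧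
    (x : Fin n → R) ∈ C ∧ (y : Fin n → R) ∈ C))

section construction

variable {R : Type u}

/-- index of the variable `x_i` -/
def ix {N : ℕ} (i : Fin N) : Fin (2 * N + 1) := ⟨2 * i.1 + 1, by omega⟩

/-- index of the variable `y_i` -/
def iy {N : ℕ} (i : Fin N) : Fin (2 * N + 1) := ⟨2 * i.1 + 2, by omega⟩

/-- the product `x_i y_i` -/
noncomputable def a (R : Type u) [CommRing R] {N : ℕ} (i : Fin N) :
    MvPolynomial (Fin (2 * N + 1)) R := X (ix i) * X (iy i)

/-- the first polynomial -/
noncomputable def PP (R : Type u) [CommRing R] (N : ℕ) :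
    MvPolynomial (Fin (2 * N + 1)) R := X 0 - ∑ i : Fin N, a R i

/-- the second polynomial -/
noncomputable def QQ (R : Type u) [CommRing R] (N : ℕ) :
    MvPolynomial (Fin (2 * N + 1)) R :=
  X 0 * ∑ i : Fin N, a R i - ∑ i : Fin N, ∑ j ∈ Finset.univ.erase i, a R i * a R j
    - C 2 * ∑ i : Fin N, a R i + C (N : R)

theorem eval_QQ [CommRing R] {N : ℕ} (x : Fin (2 * N + 1) → R)
    (h : eval x (PP R N) = 0) :
    eval x (QQ R N) = ∑ i : Fin N, (x (ix i) * x (iy i) - 1) ^ 2 := by
  have h0 : x 0 = ∑ i : Fin N, x (ix i) * x (iy i) := by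
    have := h
    simp only [PP, a, map_sub, eval_X, map_sum, map_mul] at this
    exact sub_eq_zero.mp this
  simp only [QQ, a, map_sub, map_add, map_mul, map_sum, eval_X, eval_C]
  rw [h0]
  set b : Fin N → R := fun i => x (ix i) * x (iy i) with hb
  have e1 : (∑ i, b i) * (∑ i, b i)
      = ∑ i, (b i ^ 2 + ∑ j ∈ Finset.univ.erase i, b i * b j) := by
    rw [Finset.sum_mul_sum]
    refine Finset.sum_congr rfl fun i _ => ?_
    rw [← Finset.add_sum_erase _ _ (Finset.mem_univ i), sq]
  have e2 : ∑ i, (b i - 1) ^ 2 = ∑ i, b i ^ 2 - 2 * ∑ i, b i + (N : R) := by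
    have : ∀ i, (b i - 1) ^ 2 = b i ^ 2 - 2 * b i + 1 := fun i => by ring
    rw [Finset.sum_congr rfl fun i _ => this i, Finset.sum_add_distrib, Finset.sum_sub_distrib,
      ← Finset.mul_sum]
    simp
  rw [e2, e1, Finset.sum_add_distrib]
  ring

theorem degreeOf_X_le [CommRing R] [Nontrivial R] {n : ℕ} (i j : Fin n) :
    degreeOf i (X j : MvPolynomial (Fin n) R) ≤ if i = j then 1 else 0 := by
  rw [degreeOf_X]

theorem multiAffine_a [CommRing R] [Nontrivial R] {N : ℕ} (i : Fin N) (k : Fin (2 * N + 1)) :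
    degreeOf k (a R i) ≤ (if k = ix i then 1 else 0) + (if k = iy i then 1 else 0) := by
  unfold a
  refine (degreeOf_mul_le _ _ _).trans (add_le_add ?_ ?_)
  · exact degreeOf_X_le _ _
  · exact degreeOf_X_le _ _

theorem degreeOf_sum_le' {ι : Type*} [CommRing R] {n : ℕ} (k : Fin n) (s : Finset ι)
    (f : ι → MvPolynomial (Fin n) R) (m : ℕ) (h : ∀ i ∈ s, degreeOf k (f i) ≤ m) :
    degreeOf k (∑ i ∈ s, f i) ≤ m := by
  classical
  refine (degreeOf_sum_le _ _ _).trans (Finset.sup_le h)

theorem ix_ne_iy {N : ℕ} (i j : Fin N) : ix i ≠ iy j := by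
  intro h
  have := congrArg Fin.val h
  simp only [ix, iy] at this
  omega

theorem ix_inj {N : ℕ} {i j : Fin N} (h : ix i = ix j) : i = j := by
  have := congrArg Fin.val h
  simp only [ix] at this
  exact Fin.ext (by omega)

theorem iy_inj {N : ℕ} {i j : Fin N} (h : iy i = iy j) : i = j := by
  have := congrArg Fin.val h
  simp only [iy] at this
  exact Fin.ext (by omega)

theorem ix_ne_zero {N : ℕ} (i : Fin N) : (0 : Fin (2 * N + 1)) ≠ ix i := by
  intro h
  have := congrArg Fin.val h
  simp only [ix, Fin.val_zero] at this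
  omega

theorem iy_ne_zero {N : ℕ} (i : Fin N) : (0 : Fin (2 * N + 1)) ≠ iy i := by
  intro h
  have := congrArg Fin.val h
  simp only [iy, Fin.val_zero] at this
  omega

theorem deg_a_le_one [CommRing R] [Nontrivial R] {N : ℕ} (i : Fin N)
    (k : Fin (2 * N + 1)) : degreeOf k (a R i) ≤ 1 := by
  refine (multiAffine_a i k).trans ?_
  by_cases h1 : k = ix i
  · subst h1
    simp [ix_ne_iy]
  · simp only [if_neg h1]
    split_ifs <;> simp

theorem deg_aa_le_one [CommRing R] [Nontrivial R] {N : ℕ} {i j : Fin N} (hij : i ≠ j)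
    (k : Fin (2 * N + 1)) : degreeOf k (a R i * a R j) ≤ 1 := by
  refine (degreeOf_mul_le _ _ _).trans ?_
  refine (add_le_add (multiAffine_a i k) (multiAffine_a j k)).trans ?_
  by_cases h1 : k = ix i
  · subst h1
    have h2 : ix i ≠ ix j := fun h => hij (ix_inj h)
    simp [ix_ne_iy, h2]
  · by_cases h2 : k = iy i
    · subst h2
      have h3 : iy i ≠ iy j := fun h => hij (iy_inj h)
      simp [(ix_ne_iy _ _).symm, h3]
    · by_cases h3 : k = ix j
      · subst h3
        simp [ix_ne_iy, h1]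
      · simp only [if_neg h1, if_neg h2, if_neg h3]
        split_ifs <;> simp

theorem deg_X0a_le_one [CommRing R] [Nontrivial R] {N : ℕ} (i : Fin N)
    (k : Fin (2 * N + 1)) : degreeOf k (X 0 * a R i) ≤ 1 := by
  refine (degreeOf_mul_le _ _ _).trans ?_
  refine (add_le_add (degreeOf_X_le _ _) (multiAffine_a i k)).trans ?_
  by_cases h0 : k = 0
  · subst h0
    simp [ix_ne_zero, iy_ne_zero]
  · by_cases h1 : k = ix i
    · subst h1
      simp [ix_ne_iy, (ix_ne_zero _).symm]
    · simp only [if_neg h1, if_neg h0]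
      split_ifs <;> simp

theorem multiAffine_PP [CommRing R] [Nontrivial R] (N : ℕ) : MultiAffine (PP R N) := by
  intro k
  unfold PP
  refine (degreeOf_sub_le _ _ _).trans (max_le ?_ ?_)
  · exact (degreeOf_X_le _ _).trans (by split_ifs <;> simp)
  · exact degreeOf_sum_le' _ _ _ _ fun i _ => deg_a_le_one i k

theorem multiAffine_QQ [CommRing R] [Nontrivial R] (N : ℕ) : MultiAffine (QQ R N) := by
  intro k
  unfold QQ
  refine (degreeOf_add_le _ _ _).trans (max_le ?_ (by rw [degreeOf_C]; norm_num))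
  refine (degreeOf_sub_le _ _ _).trans (max_le ?_ ?_)
  · refine (degreeOf_sub_le _ _ _).trans (max_le ?_ ?_)
    · rw [Finset.mul_sum]
      exact degreeOf_sum_le' _ _ _ _ fun i _ => deg_X0a_le_one i k
    · refine degreeOf_sum_le' _ _ _ _ fun i _ => degreeOf_sum_le' _ _ _ _ fun j hj => ?_
      exact deg_aa_le_one (Finset.ne_of_mem_erase hj).symm k
  · refine (degreeOf_mul_le _ _ _).trans ?_
    rw [degreeOf_C, zero_add]
    exact degreeOf_sum_le' _ _ _ _ fun i _ => deg_a_le_one i k

theorem totalDegree_sum_le' {ι : Type*} [CommRing R] {n : ℕ} (s : Finset ι)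
    (f : ι → MvPolynomial (Fin n) R) (m : ℕ) (h : ∀ i ∈ s, (f i).totalDegree ≤ m) :
    (∑ i ∈ s, f i).totalDegree ≤ m :=
  totalDegree_finsetSum_le h

theorem td_a [CommRing R] [Nontrivial R] {N : ℕ} (i : Fin N) :
    (a R i).totalDegree ≤ 2 := by
  unfold a
  refine (totalDegree_mul _ _).trans ?_
  rw [totalDegree_X, totalDegree_X]

theorem td_PP [CommRing R] [Nontrivial R] (N : ℕ) : (PP R N).totalDegree ≤ 4 := by
  unfold PP
  refine (totalDegree_sub _ _).trans (max_le ?_ ?_)
  · rw [totalDegree_X]; norm_num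
  · exact totalDegree_sum_le' _ _ _ fun i _ => (td_a i).trans (by norm_num)

theorem td_QQ [CommRing R] [Nontrivial R] (N : ℕ) : (QQ R N).totalDegree ≤ 4 := by
  unfold QQ
  refine (totalDegree_add _ _).trans (max_le ?_ (by rw [totalDegree_C]; norm_num))
  refine (totalDegree_sub _ _).trans (max_le ?_ ?_)
  · refine (totalDegree_sub _ _).trans (max_le ?_ ?_)
    · rw [Finset.mul_sum]
      refine totalDegree_sum_le' _ _ _ fun i _ => (totalDegree_mul _ _).trans ?_
      rw [totalDegree_X]
      exact (Nat.add_le_add_left (td_a i) 1).trans (by norm_num)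
    · refine totalDegree_sum_le' _ _ _ fun i _ => totalDegree_sum_le' _ _ _ fun j _ => ?_
      exact (totalDegree_mul _ _).trans (Nat.add_le_add (td_a i) (td_a j))
  · refine (totalDegree_mul _ _).trans ?_
    rw [totalDegree_C, zero_add]
    exact totalDegree_sum_le' _ _ _ fun i _ => (td_a i).trans (by norm_num)

variable [Field R] [LinearOrder R] [IsStrictOrderedRing R]

/-- on the common zero set all the products `x_i y_i` are one -/
theorem prod_eq_one {N : ℕ} {x : Fin (2 * N + 1) → R} (hx : x ∈ Z (PP R N) (QQ R N))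
    (i : Fin N) : x (ix i) * x (iy i) = 1 := by
  have h := eval_QQ x hx.1
  rw [hx.2] at h
  have := (Finset.sum_eq_zero_iff_of_nonneg (fun i _ => sq_nonneg _)).mp h.symm i
    (Finset.mem_univ i)
  exact sub_eq_zero.mp (pow_eq_zero_iff (two_ne_zero) |>.mp this)

theorem x_ne_zero {N : ℕ} {x : Fin (2 * N + 1) → R} (hx : x ∈ Z (PP R N) (QQ R N))
    (i : Fin N) : x (ix i) ≠ 0 := by
  intro h
  have := prod_eq_one hx i
  rw [h, zero_mul] at this
  exact zero_ne_one this

/-- the point with prescribed signs -/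
def pt (R : Type u) [Field R] {N : ℕ} (s : Fin N → Bool) : Fin (2 * N + 1) → R := fun k =>
  if h : k.1 = 0 then (N : R) else if s ⟨(k.1 - 1) / 2, by omega⟩ then 1 else -1

omit [LinearOrder R] [IsStrictOrderedRing R] in
theorem pt_ix {N : ℕ} (s : Fin N → Bool) (i : Fin N) :
    pt R s (ix i) = if s i then 1 else -1 := by
  simp [pt, ix]

omit [LinearOrder R] [IsStrictOrderedRing R] in
theorem pt_iy {N : ℕ} (s : Fin N → Bool) (i : Fin N) :
    pt R s (iy i) = if s i then 1 else -1 := by
  have : (2 * i.1 + 1) / 2 = i.1 := by omega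
  simp [pt, iy, this]

omit [LinearOrder R] [IsStrictOrderedRing R] in
theorem pt_zero {N : ℕ} (s : Fin N → Bool) : pt R s 0 = (N : R) := by
  simp [pt]

theorem pt_mem {N : ℕ} (s : Fin N → Bool) : pt R s ∈ Z (PP R N) (QQ R N) := by
  have hp : ∀ i, pt R s (ix i) * pt R s (iy i) = 1 := by
    intro i
    rw [pt_ix, pt_iy]
    split_ifs <;> norm_num
  have h1 : eval (pt R s) (PP R N) = 0 := by
    simp only [PP, a, map_sub, eval_X, map_sum, map_mul, hp, pt_zero]
    simp
  refine ⟨h1, ?_⟩
  rw [eval_QQ _ h1]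
  exact Finset.sum_eq_zero fun i _ => by rw [hp]; norm_num

/-- the sign pattern of the coordinates `x_i` -/
noncomputable def sg {N : ℕ} (x : Fin (2 * N + 1) → R) : Fin N → Bool := fun i =>
  decide (0 < x (ix i))

theorem sg_pt {N : ℕ} (s : Fin N → Bool) : sg (pt R s) = s := by
  funext i
  unfold sg
  rw [pt_ix]
  cases h : s i <;> simp

theorem sg_eq_of_sa {N : ℕ} (C : Set (Fin (2 * N + 1) → R)) (hC : C ⊆ Z (PP R N) (QQ R N))
    (h : SAConnected C) {x y : Fin (2 * N + 1) → R} (hx : x ∈ C) (hy : y ∈ C) :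
    sg x = sg y := by
  funext i
  have hpos : SemiAlg (R := R) (n := 2 * N + 1) {z | 0 < z (ix i)} := by
    have := SemiAlg.pos (R := R) (X (ix i) : MvPolynomial (Fin (2 * N + 1)) R)
    simpa only [eval_X] using this
  have hU : RelOpen C (C ∩ {z | 0 < z (ix i)}) := by
    refine ⟨Set.inter_subset_left, fun z hz => ⟨z (ix i), hz.2, fun w hw hwz => ⟨hw, ?_⟩⟩⟩
    have := abs_lt.mp (hwz (ix i))
    show 0 < w (ix i)
    linarith [this.1]
  have hV : RelOpen C (C ∩ {z | 0 < z (ix i)}ᶜ) := by
    refine ⟨Set.inter_subset_left, fun z hz => ?_⟩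
    have hz0 : z (ix i) < 0 := lt_of_le_of_ne (not_lt.mp hz.2) (x_ne_zero (hC hz.1) i)
    refine ⟨-z (ix i), by linarith, fun w hw hwz => ⟨hw, ?_⟩⟩
    have := abs_lt.mp (hwz (ix i))
    intro hw'
    have hw'' : 0 < w (ix i) := hw'
    linarith [this.2]
  have key := h.2 _ _ (h.1.inter hpos) (h.1.inter hpos.compl) hU hV
    (Set.inter_union_compl _ _)
    (Set.disjoint_left.mpr fun z hz hz' => hz'.2 hz.2)
  unfold sg
  rcases key with key | key
  · have h1 : ¬ 0 < x (ix i) := fun h0 => (Set.eq_empty_iff_forall_notMem.mp key x) ⟨hx, h0⟩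
    have h2 : ¬ 0 < y (ix i) := fun h0 => (Set.eq_empty_iff_forall_notMem.mp key y) ⟨hy, h0⟩
    simp only [h1, h2]
  · have h1 : 0 < x (ix i) := by
      by_contra h0
      exact (Set.eq_empty_iff_forall_notMem.mp key x) ⟨hx, h0⟩
    have h2 : 0 < y (ix i) := by
      by_contra h0
      exact (Set.eq_empty_iff_forall_notMem.mp key y) ⟨hy, h0⟩
    simp only [h1, h2]

theorem card_bool (N : ℕ) : ENat.card (Fin N → Bool) = ((2 ^ N : ℕ) : ℕ∞) := by
  rw [ENat.card_eq_coe_fintype_card]
  simp

theorem saB0_ge (N : ℕ) : ((2 ^ N : ℕ) : ℕ∞) ≤ saB0 (Z (PP R N) (QQ R N)) := by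
  rw [← card_bool]
  unfold saB0
  set r := (fun x y : Z (PP R N) (QQ R N) => ∃ C : Set (Fin (2 * N + 1) → R),
    C ⊆ Z (PP R N) (QQ R N) ∧ SAConnected C ∧
    (x : Fin (2 * N + 1) → R) ∈ C ∧ (y : Fin (2 * N + 1) → R) ∈ C) with hr
  let f : (Fin N → Bool) → Quot r := fun s => Quot.mk r ⟨pt R s, pt_mem s⟩
  let g : Quot r → (Fin N → Bool) := Quot.lift (fun x => sg x.1) (by
    rintro x y ⟨C, hC, hc, hx, hy⟩
    exact sg_eq_of_sa C hC hc hx hy)
  have hgf : ∀ s, g (f s) = s := fun s => sg_pt s
  exact ENat.card_le_card_of_injective (f := f) (Function.LeftInverse.injective hgf)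

end construction

theorem b0_ge (N : ℕ) :
    ((2 ^ N : ℕ) : ℕ∞) ≤ ENat.card (ConnectedComponents (Z (PP ℝ N) (QQ ℝ N))) := by
  rw [← card_bool]
  have hcont : Continuous (fun x : Z (PP ℝ N) (QQ ℝ N) => sg x.1) := by
    refine continuous_pi fun i => ?_
    have hx : Continuous (fun x : Z (PP ℝ N) (QQ ℝ N) => x.1 (ix i)) :=
      (continuous_apply (ix i)).comp continuous_subtype_val
    rw [continuous_discrete_rng]
    intro b
    cases b
    · have : ((fun x : Z (PP ℝ N) (QQ ℝ N) => sg x.1 i) ⁻¹' {false})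
          = {x : Z (PP ℝ N) (QQ ℝ N) | x.1 (ix i) < 0} := by
        ext x
        have := x_ne_zero x.2 i
        simp only [sg, Set.mem_preimage, Set.mem_singleton_iff, decide_eq_false_iff_not,
          Set.mem_ofPred_eq, not_lt]
        exact ⟨fun h => lt_of_le_of_ne h this, le_of_lt⟩
      rw [this]
      exact isOpen_lt hx continuous_const
    · have : ((fun x : Z (PP ℝ N) (QQ ℝ N) => sg x.1 i) ⁻¹' {true})
          = {x : Z (PP ℝ N) (QQ ℝ N) | 0 < x.1 (ix i)} := by
        ext x
        simp only [sg, Set.mem_preimage, Set.mem_singleton_iff, decide_eq_true_eq,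
          Set.mem_ofPred_eq]
      rw [this]
      exact isOpen_lt continuous_const hx
  let f : (Fin N → Bool) → ConnectedComponents (Z (PP ℝ N) (QQ ℝ N)) := fun s =>
    ((⟨pt ℝ s, pt_mem s⟩ : Z (PP ℝ N) (QQ ℝ N)) : ConnectedComponents _)
  have hgf : ∀ s, hcont.connectedComponentsLift (f s) = s := fun s => by
    simp only [f, Continuous.connectedComponentsLift_apply_coe]
    exact sg_pt s
  exact ENat.card_le_card_of_injective (f := f) (Function.LeftInverse.injective hgf)

/-- The number of components of the common zero set of two multi-affine polynomials of degree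
at most four is not bounded independently of the number of variables: in `2 N + 1` variables
it can be at least `2 ^ N`, over the reals (connected components) and over every real closed
field (semi-algebraically connected components). -/
theorem result (N : ℕ) :
    (∃ P Q : MvPolynomial (Fin (2 * N + 1)) ℝ,
      MultiAffine P ∧ MultiAffine Q ∧ P.totalDegree ≤ 4 ∧ Q.totalDegree ≤ 4 ∧
      ((2 ^ N : ℕ) : ℕ∞) ≤ ENat.card (ConnectedComponents (Z P Q))) ∧
    (∀ (R : Type u) [Field R] [LinearOrder R] [IsStrictOrderedRing R] [IsRealClosed R],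
      ∃ P Q : MvPolynomial (Fin (2 * N + 1)) R,
        MultiAffine P ∧ MultiAffine Q ∧ P.totalDegree ≤ 4 ∧ Q.totalDegree ≤ 4 ∧
        ((2 ^ N : ℕ) : ℕ∞) ≤ saB0 (Z P Q)) :=
  ⟨⟨PP ℝ N, QQ ℝ N, multiAffine_PP N, multiAffine_QQ N, td_PP N, td_QQ N, b0_ge N⟩,
    fun R _ _ _ _ => ⟨PP R N, QQ R N, multiAffine_PP N, multiAffine_QQ N, td_PP N, td_QQ N,
      saB0_ge N⟩⟩

end Pool.Agent.Results.MP_12b847_ag.Unbounded
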